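import Pool.Agent.H38.PWS.Stmts

/-!
# Board `pws`, row TRE: the tree lemma
-/

set_option autoImplicit false

namespace Pool.PWS

open Finset

namespace H14TRE

variable (A : Finset ℕ) (v : ℕ → ℕ × ℕ → ℕ) (E : ℕ → Finset (ℕ × ℕ)) (x : ℕ × ℕ → ℝ)

/-- the numbers which contain `S` and agree with `n₀` on `S` -/
def Cl (S : Finset (ℕ × ℕ)) (n₀ : ℕ) : Finset ℕ :=
  A.filter fun n => S ⊆ E n ∧ ∀ e ∈ S, v n e = v n₀ e

lemma mem_Cl (S : Finset (ℕ × ℕ)) (n₀ n : ℕ) :
    n ∈ Cl A v E S n₀ ↔ n ∈ A ∧ S ⊆ E n ∧ ∀ e ∈ S, v n e = v n₀ e := by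
  simp [Cl]

lemma geom (F : Finset ℕ) (y : ℝ) (h0 : 0 ≤ y) (h1 : y < 1) :
    ∑ f ∈ F, (1 - y) * y ^ f ≤ 1 := by
  have hsub : F ⊆ range (F.sup id + 1) := by
    intro f hf
    rw [mem_range]
    exact Nat.lt_succ_of_le (Finset.le_sup (f := id) hf)
  have hy : 0 ≤ 1 - y := by linarith
  calc ∑ f ∈ F, (1 - y) * y ^ f ≤ ∑ f ∈ range (F.sup id + 1), (1 - y) * y ^ f :=
        Finset.sum_le_sum_of_subset_of_nonneg hsub fun f _ _ => by positivity
    _ = 1 - y ^ (F.sup id + 1) := by rw [← Finset.mul_sum, mul_neg_geom_sum]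
    _ ≤ 1 := by
      have : 0 ≤ y ^ (F.sup id + 1) := by positivity
      linarith

lemma main (hx : ∀ n ∈ A, ∀ e ∈ E n, 0 ≤ x e ∧ x e < 1)
    (h : ∀ S : Finset (ℕ × ℕ), ∀ n ∈ A, S ⊆ E n →
      (∀ n' ∈ A, S ⊆ E n' → (∀ e ∈ S, v n' e = v n e) → n' = n) ∨
      ∃ e, e ∉ S ∧ ∀ n' ∈ A, S ⊆ E n' → (∀ e ∈ S, v n' e = v n e) → e ∈ E n') (k : ℕ) :
    ∀ (S : Finset (ℕ × ℕ)) (n₀ : ℕ), n₀ ∈ A → S ⊆ E n₀ →
      (∀ n ∈ Cl A v E S n₀, (E n \ S).card ≤ k) →
      ∑ n ∈ Cl A v E S n₀, ∏ e ∈ E n \ S, ((1 - x e) * x e ^ v n e) ≤ 1 := by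
  have hw : ∀ n ∈ A, ∀ e ∈ E n, 0 ≤ (1 - x e) * x e ^ v n e ∧ (1 - x e) * x e ^ v n e ≤ 1 := by
    intro n hn e he
    obtain ⟨h0, h1⟩ := hx n hn e he
    have h2 : 0 ≤ 1 - x e := by linarith
    have h3 : 1 - x e ≤ 1 := by linarith
    have h4 : 0 ≤ x e ^ v n e := by positivity
    have h5 : x e ^ v n e ≤ 1 := pow_le_one₀ h0 h1.le
    exact ⟨by positivity, mul_le_one₀ h3 h4 h5⟩
  induction k with
  | zero =>
    intro S n₀ hn₀ hS hk
    rcases h S n₀ hn₀ hS with h1 | ⟨e, he, h1⟩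
    · have hsub : Cl A v E S n₀ ⊆ {n₀} := by
        intro n hn
        rw [mem_Cl] at hn
        rw [mem_singleton]
        exact h1 n hn.1 hn.2.1 hn.2.2
      calc _ ≤ ∑ n ∈ ({n₀} : Finset ℕ), ∏ e ∈ E n \ S, ((1 - x e) * x e ^ v n e) := by
            refine Finset.sum_le_sum_of_subset_of_nonneg hsub fun n hn _ => ?_
            rw [mem_singleton] at hn
            subst hn
            exact Finset.prod_nonneg fun e he =>
              (hw n hn₀ e (Finset.mem_sdiff.mp he).1).1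
        _ ≤ 1 := by
            rw [Finset.sum_singleton]
            exact Finset.prod_le_one (fun e he => (hw n₀ hn₀ e (Finset.mem_sdiff.mp he).1).1)
              (fun e he => (hw n₀ hn₀ e (Finset.mem_sdiff.mp he).1).2)
    · exfalso
      have h2 := hk n₀ ((mem_Cl A v E S n₀ n₀).mpr ⟨hn₀, hS, fun _ _ => rfl⟩)
      have h3 : e ∈ E n₀ \ S := Finset.mem_sdiff.mpr ⟨h1 n₀ hn₀ hS (fun _ _ => rfl), he⟩
      have h4 : 0 < (E n₀ \ S).card := Finset.card_pos.mpr ⟨e, h3⟩
      omega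
  | succ k ih =>
    intro S n₀ hn₀ hS hk
    rcases h S n₀ hn₀ hS with h1 | ⟨e, he, h1⟩
    · have hsub : Cl A v E S n₀ ⊆ {n₀} := by
        intro n hn
        rw [mem_Cl] at hn
        rw [mem_singleton]
        exact h1 n hn.1 hn.2.1 hn.2.2
      calc _ ≤ ∑ n ∈ ({n₀} : Finset ℕ), ∏ e ∈ E n \ S, ((1 - x e) * x e ^ v n e) := by
            refine Finset.sum_le_sum_of_subset_of_nonneg hsub fun n hn _ => ?_
            rw [mem_singleton] at hn
            subst hn
            exact Finset.prod_nonneg fun e he =>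
              (hw n hn₀ e (Finset.mem_sdiff.mp he).1).1
        _ ≤ 1 := by
            rw [Finset.sum_singleton]
            exact Finset.prod_le_one (fun e he => (hw n₀ hn₀ e (Finset.mem_sdiff.mp he).1).1)
              (fun e he => (hw n₀ hn₀ e (Finset.mem_sdiff.mp he).1).2)
    · have heE : ∀ n ∈ Cl A v E S n₀, e ∈ E n := by
        intro n hn
        rw [mem_Cl] at hn
        exact h1 n hn.1 hn.2.1 hn.2.2
      have hx0 : 0 ≤ x e ∧ x e < 1 := hx n₀ hn₀ e (h1 n₀ hn₀ hS fun _ _ => rfl)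
      have hx1 : 0 ≤ 1 - x e := by linarith [hx0.2]
      have hsplit : ∀ n ∈ Cl A v E S n₀, E n \ S = insert e (E n \ insert e S) := by
        intro n hn
        ext a
        simp only [Finset.mem_sdiff, Finset.mem_insert]
        constructor
        · rintro ⟨h2, h3⟩
          by_cases h4 : a = e
          · exact Or.inl h4
          · exact Or.inr ⟨h2, fun h5 => h5.elim h4 h3⟩
        · rintro (h2 | ⟨h2, h3⟩)
          · subst h2
            exact ⟨heE n hn, he⟩
          · exact ⟨h2, fun h4 => h3 (Or.inr h4)⟩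
      have hnot : ∀ n, e ∉ E n \ insert e S := by
        intro n h2
        exact (Finset.mem_sdiff.mp h2).2 (Finset.mem_insert_self _ _)
      have hprod : ∀ n ∈ Cl A v E S n₀, ∏ a ∈ E n \ S, ((1 - x a) * x a ^ v n a)
          = ((1 - x e) * x e ^ v n e) * ∏ a ∈ E n \ insert e S, ((1 - x a) * x a ^ v n a) := by
        intro n hn
        rw [hsplit n hn, Finset.prod_insert (hnot n)]
      rw [Finset.sum_congr rfl hprod]
      rw [← Finset.sum_fiberwise_of_maps_to (g := fun n => v n e)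
        (t := (Cl A v E S n₀).image fun n => v n e)
        (fun n hn => Finset.mem_image_of_mem _ hn)]
      refine le_trans (Finset.sum_le_sum fun f hf => ?_)
        (geom ((Cl A v E S n₀).image fun n => v n e) (x e) hx0.1 hx0.2)
      obtain ⟨n₁, hn₁, hf1⟩ := Finset.mem_image.mp hf
      have hset : (Cl A v E S n₀).filter (fun n => v n e = f) = Cl A v E (insert e S) n₁ := by
        ext n
        rw [Finset.mem_filter, mem_Cl, mem_Cl]
        have hn₁' := (mem_Cl A v E S n₀ n₁).mp hn₁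
        constructor
        · rintro ⟨⟨h2, h3, h4⟩, h5⟩
          refine ⟨h2, Finset.insert_subset (h1 n h2 h3 h4) h3, ?_⟩
          intro a ha
          rcases Finset.mem_insert.mp ha with h6 | h6
          · subst h6
            rw [h5, ← hf1]
          · rw [h4 a h6, hn₁'.2.2 a h6]
        · rintro ⟨h2, h3, h4⟩
          refine ⟨⟨h2, (Finset.subset_insert _ _).trans h3, ?_⟩, ?_⟩
          · intro a ha
            rw [h4 a (Finset.mem_insert_of_mem ha), hn₁'.2.2 a ha]
          · rw [h4 e (Finset.mem_insert_self _ _), ← hf1]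
      have hval : ∀ n ∈ (Cl A v E S n₀).filter (fun n => v n e = f),
          ((1 - x e) * x e ^ v n e) * ∏ a ∈ E n \ insert e S, ((1 - x a) * x a ^ v n a)
          = ((1 - x e) * x e ^ f) * ∏ a ∈ E n \ insert e S, ((1 - x a) * x a ^ v n a) := by
        intro n hn
        rw [(Finset.mem_filter.mp hn).2]
      rw [Finset.sum_congr rfl hval, ← Finset.mul_sum, hset]
      have hn₁' := (mem_Cl A v E S n₀ n₁).mp hn₁
      have hrec := ih (insert e S) n₁ hn₁'.1
        (Finset.insert_subset (heE n₁ hn₁) hn₁'.2.1) (by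
          intro n hn
          rw [← hset] at hn
          have h2 := (Finset.mem_filter.mp hn).1
          have h3 := hk n h2
          rw [hsplit n h2, Finset.card_insert_of_notMem (hnot n)] at h3
          omega)
      calc _ ≤ ((1 - x e) * x e ^ f) * 1 :=
            mul_le_mul_of_nonneg_left hrec (mul_nonneg hx1 (pow_nonneg hx0.1 _))
        _ = _ := mul_one _

end H14TRE

open H14TRE in
theorem TRE : TREStmt := by
  intro A v E x hx h
  rcases A.eq_empty_or_nonempty with h0 | ⟨n₀, hn₀⟩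
  · subst h0
    simp
  · have hcl : Cl A v E ∅ n₀ = A := by
      ext n
      rw [mem_Cl]
      simp
    have := main A v E x hx h (A.sup fun n => (E n).card) ∅ n₀ hn₀ (Finset.empty_subset _) (by
      intro n hn
      rw [hcl] at hn
      rw [Finset.sdiff_empty]
      exact Finset.le_sup (f := fun n => (E n).card) hn)
    rw [hcl] at this
    simpa using this

end Pool.PWS
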